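import Pool.Agent.H728R2.OS.Main

/-!
# Structural stability and rotational stability
-/

open Set Filter Topology

namespace Pool.Agent.H728R2.OS

/-- `f` is structurally stable as an element of the space of `C^r` diffeomorphisms with the `C^r`
uniform topology: every nearby `g` is conjugate to `f`. -/
def StructStable {V X : Type*} [NormedAddCommGroup V] [NormedSpace ℝ V] [TopologicalSpace X]
    (π : V → X) (r : ℕ∞) (f : X ≃ₜ X) : Prop :=
  ∃ k : ℕ, (k : ℕ∞) ≤ r ∧ ∃ ε : ℝ, 0 < ε ∧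
    ∀ g : X ≃ₜ X, IsDiffeo π r g → CkClose π k ε f g → ∃ h : X ≃ₜ X, ∀ x, h (f x) = g (h x)

/-- `f` is `Ω`-stable under rotations of the circle fibres: for all small `θ`, `f` on its
nonwandering set is conjugate to the map `(x, y) ↦ f (x, y) + (0, θ)` on its nonwandering set. -/
def RotStable {B : Type*} [TopologicalSpace B] (f : (B × Circ) ≃ₜ (B × Circ)) : Prop :=
  ∃ ε : ℝ, 0 < ε ∧ ∀ θ : ℝ, |θ| < ε → OmegaConj f (f.trans (rotC θ))

theorem omega_image {X : Type*} [TopologicalSpace X] {f g h : X ≃ₜ X}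
    (hc : ∀ x, h (f x) = g (h x)) (x : X) (hx : x ∈ Omega f) : h x ∈ Omega g := by
  intro U hU
  obtain ⟨n, hn, z, ⟨y, hy, rfl⟩, hz⟩ := hx (h ⁻¹' U) (h.continuous.continuousAt hU)
  have hit : ∀ n : ℕ, ∀ y, h (f^[n] y) = g^[n] (h y) := by
    intro n
    induction n with
    | zero => intro y; rfl
    | succ n ih =>
      intro y
      rw [Function.iterate_succ_apply', Function.iterate_succ_apply', hc, ih]
  exact ⟨n, hn, h (f^[n] y), ⟨h y, hy, (hit n y).symm⟩, hz⟩

theorem omegaConj_of_conj {X : Type*} [TopologicalSpace X] {f g : X ≃ₜ X}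
    (hc : ∃ h : X ≃ₜ X, ∀ x, h (f x) = g (h x)) : OmegaConj f g := by
  obtain ⟨h, hc⟩ := hc
  have hc' : ∀ x, h.symm (g x) = f (h.symm x) := by
    intro x
    rw [h.symm_apply_eq, hc, h.apply_symm_apply]
  have himg : h '' Omega f = Omega g := by
    apply Subset.antisymm
    · rintro _ ⟨x, hx, rfl⟩
      exact omega_image hc x hx
    · intro y hy
      exact ⟨h.symm y, omega_image hc' y hy, h.apply_symm_apply y⟩
  refine ⟨(h.image (Omega f)).trans (Homeomorph.setCongr himg), ?_⟩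
  intro x y hxy
  show h y = g (h x)
  rw [hxy, hc]

theorem StructStable.omegaStable {V X : Type*} [NormedAddCommGroup V] [NormedSpace ℝ V]
    [TopologicalSpace X] {π : V → X} {r : ℕ∞} {f : X ≃ₜ X} (h : StructStable π r f) :
    OmegaStable π r f := by
  obtain ⟨k, hk, ε, hε, h⟩ := h
  exact ⟨k, hk, ε, hε, fun g hg hc => omegaConj_of_conj (h g hg hc)⟩

theorem main_struct {d : ℕ} {r : ℕ∞} (hr : 1 ≤ r) (T : Torus d ≃ₜ Torus d)
    (hT : ChainHyp toTorus T) (f : (Torus d × Circ) ≃ₜ (Torus d × Circ))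
    (hf : IsDiffeo toTorus1 r f) (hs : IsProjSkew T f)
    (hst : StructStable toTorus1 r f ∨ OmegaStable toTorus1 r f ∨ RotStable f) :
    AxiomA toTorus1 f := by
  rcases hst with h | h | h
  · exact (main hr T hT f hf hs h.omegaStable).2.1
  · exact (main hr T hT f hf hs h).2.1
  · obtain ⟨ε, hε, h⟩ := h
    exact (main_rot hr T hT f hf hs ⟨min ε 1, lt_min hε one_pos, min_le_right _ _,
      fun θ hθ => h θ (hθ.trans_le (min_le_left _ _))⟩).2.1

end Pool.Agent.H728R2.OS
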