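import Pool.Agent.H728R2.OS.Defs

/-!
# Omega-stability of skew products: auxiliary definitions used in the proof
-/

open Set Filter Topology Complex Matrix
open scoped ComplexConjugate

namespace Pool.Agent.H728R2.OS

/-- `e y = exp (2 π i y)`. -/
noncomputable def e (y : Circ) : ℂ := (AddCircle.toCircle y : ℂ)

/-- The matrix of `SU(1,1)` with first row `(a, b)`. -/
noncomputable def su (a b : ℂ) : Matrix (Fin 2) (Fin 2) ℂ := !![a, b; conj b, conj a]

/-- `diag (exp (π i θ), exp (-π i θ))`. -/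
noncomputable def rot (θ : ℂ) : Matrix (Fin 2) (Fin 2) ℂ :=
  !![Complex.exp (Real.pi * θ * I), 0; 0, Complex.exp (-(Real.pi * θ * I))]

/-- The product `R B_{n-1} ⋯ R B_0` with `R = rot θ`, `B_j = su (a j) (b j)`. -/
noncomputable def pr (a b : ℕ → ℂ) (θ : ℂ) : ℕ → Matrix (Fin 2) (Fin 2) ℂ
  | 0 => 1
  | n + 1 => rot θ * su (a n) (b n) * pr a b θ n

/-- The squared norm of a vector of `ℂ²`. -/
noncomputable def nsq (v : Fin 2 → ℂ) : ℝ := ‖v 0‖ ^ 2 + ‖v 1‖ ^ 2

/-- Rotation of the fibres by `θ`. -/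
noncomputable def rotC {B : Type*} [TopologicalSpace B] (θ : ℝ) : (B × Circ) ≃ₜ (B × Circ) :=
  (Homeomorph.refl B).prodCongr (Homeomorph.addRight (θ : UnitAddCircle))

/-- The Moebius relation for the fibre maps. -/
def Mob {B : Type*} (f : B × Circ → B × Circ) (a b : B → ℂ) : Prop :=
  ∀ x y, e (f (x, y)).2 = (a x * e y + b x) / (conj (b x) * e y + conj (a x))

/-- The weight `|conj b e + conj a|²`, the inverse of the derivative of the fibre map. -/
noncomputable def wt {B : Type*} (a b : B → ℂ) (z : B × Circ) : ℝ :=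
  ‖conj (b z.1) * e z.2 + conj (a z.1)‖ ^ 2

/-- `Phi f φ n z = φ (z) φ (f z) ⋯ φ (f^{n-1} z)`. -/
noncomputable def Phi {Z : Type*} (f : Z → Z) (φ : Z → ℝ) (n : ℕ) (z : Z) : ℝ :=
  ∏ i ∈ Finset.range n, φ (f^[i] z)

/-- The topological data: a skew product `F` over `T` with a positive continuous weight `φ` such
that the Moebius relation and the inequality `∑_{j ≤ n} Phi j ≤ K (1 + Phi n)` hold. -/
structure TopData (B : Type*) [MetricSpace B] [CompactSpace B] where
  T : B ≃ₜ B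
  F : (B × Circ) ≃ₜ (B × Circ)
  fst_F : ∀ z, (F z).1 = T z.1
  φ : B × Circ → ℝ
  φ_pos : ∀ z, 0 < φ z
  φ_cont : Continuous φ
  Λ : Set B
  Λ_closed : IsClosed Λ
  Λ_inv : ∀ x, T x ∈ Λ ↔ x ∈ Λ
  K : ℝ
  K_pos : 0 < K
  sum_le : ∀ z : B × Circ, z.1 ∈ Λ → ∀ n : ℕ,
    ∑ j ∈ Finset.range (n + 1), Phi F φ j z ≤ K * (1 + Phi F φ n z)
  mob : ∀ x y y', ‖e (F (x, y)).2 - e (F (x, y')).2‖ ^ 2 * (φ (x, y) * φ (x, y')) =
    ‖e y - e y'‖ ^ 2
  ex_le : ∀ (x : B) (n : ℕ), ∃ y, Phi F φ n (x, y) ≤ 1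
  ex_ge : ∀ (x : B) (n : ℕ), ∃ y, 1 ≤ Phi F φ n (x, y)

namespace TopData

variable {B : Type*} [MetricSpace B] [CompactSpace B] (D : TopData B)

/-- Forward growth of the weights. -/
noncomputable def up (n : ℕ) (z : B × Circ) : ℝ := Phi D.F D.φ n z

/-- Backward growth of the weights: `dn n z = (Phi n (F^{-n} z))⁻¹`. -/
noncomputable def dn (n : ℕ) (z : B × Circ) : ℝ := (Phi D.F D.φ n (D.F.symm^[n] z))⁻¹

/-- The repelling section (the stable directions): forward weights are bounded. -/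
def S : Set (B × Circ) := {z | z.1 ∈ D.Λ ∧ ∃ C : ℝ, ∀ n, D.up n z ≤ C}

/-- The attracting section (the unstable directions): backward weights are bounded. -/
def U : Set (B × Circ) := {z | z.1 ∈ D.Λ ∧ ∃ C : ℝ, ∀ n, D.dn n z ≤ C}

end TopData

/-- `π : V → X` is the quotient by a discrete group of translations. -/
structure IsCov {V X : Type*} [NormedAddCommGroup V] [NormedSpace ℝ V] [TopologicalSpace X]
    (π : V → X) : Prop where
  quot : IsOpenQuotientMap π
  period : ∃ Γ : AddSubgroup V, DiscreteTopology Γ ∧ ∀ z z', π z = π z' ↔ z' - z ∈ Γ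

/-- A block triangular cocycle `(v, s) ↦ (A v, c v + δ s)` on `V × ℝ` over the homeomorphism `h`,
whose quotient cocycle `A` (with inverse `B`) is hyperbolic with stable projections `P`. -/
structure BlockData (Y V : Type*) [TopologicalSpace Y] [NormedAddCommGroup V]
    [NormedSpace ℝ V] where
  h : Y ≃ₜ Y
  A : Y → V →L[ℝ] V
  B : Y → V →L[ℝ] V
  c : Y → V →L[ℝ] ℝ
  δ : Y → ℝ
  P : Y → V →L[ℝ] V
  A_cont : Continuous A
  B_cont : Continuous B
  c_cont : Continuous c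
  δ_cont : Continuous δ
  P_cont : Continuous P
  AB : ∀ y v, B (h y) (A y v) = v
  BA : ∀ y v, A y (B (h y) v) = v
  δ_pos : ∀ y, 0 < δ y
  proj : ∀ y v, P y (P y v) = P y v
  comm : ∀ y v, A y (P y v) = P (h y) (A y v)

namespace BlockData

variable {Y V : Type*} [TopologicalSpace Y] [NormedAddCommGroup V] [NormedSpace ℝ V]
  (D : BlockData Y V)

/-- The map of `Y × V` given by `A`. -/
def mA (p : Y × V) : Y × V := (D.h p.1, D.A p.1 p.2)

/-- The inverse map, given by `B`. -/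
def mB (p : Y × V) : Y × V := (D.h.symm p.1, D.B p.1 p.2)

/-- The map of `Y × (V × ℝ)` given by the block triangular cocycle. -/
noncomputable def mL (p : Y × (V × ℝ)) : Y × (V × ℝ) :=
  (D.h p.1, (D.A p.1 p.2.1, D.c p.1 p.2.1 + D.δ p.1 * p.2.2))

/-- The inverse of `mL`. -/
noncomputable def mM (p : Y × (V × ℝ)) : Y × (V × ℝ) :=
  (D.h.symm p.1, (D.B p.1 p.2.1,
    (D.δ (D.h.symm p.1))⁻¹ * (p.2.2 - D.c (D.h.symm p.1) (D.B p.1 p.2.1))))

end BlockData

end Pool.Agent.H728R2.OS
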