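import Mathlib

/-!
# Omega-stability of skew products of tori: definitions

Diffeomorphisms of `𝕋^d` and of `𝕋^d × 𝕋` are described through their lifts to `ℝ^d` and `ℝ^d × ℝ`.
All notions are written for a general covering map `π : V → X` of a space `X` by a normed space `V`;
they are used for `toTorus : ℝ^d → 𝕋^d` and `toTorus1 : ℝ^d × ℝ → 𝕋^d × 𝕋`.
-/

open Set Filter Topology

namespace Pool.Agent.H728R2.OS

/-- The circle `𝕋 = ℝ/ℤ`. -/
abbrev Circ : Type := UnitAddCircle

/-- The torus `𝕋^d = (ℝ/ℤ)^d`. -/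
abbrev Torus (d : ℕ) : Type := Fin d → UnitAddCircle

/-- The covering map `ℝ^d → 𝕋^d`. -/
def toTorus {d : ℕ} (z : Fin d → ℝ) : Torus d := fun i => (z i : UnitAddCircle)

/-- The covering map `ℝ^d × ℝ → 𝕋^d × 𝕋`. -/
def toTorus1 {d : ℕ} (z : (Fin d → ℝ) × ℝ) : Torus d × Circ := (toTorus z.1, (z.2 : UnitAddCircle))

section General

variable {V X : Type*} [NormedAddCommGroup V] [NormedSpace ℝ V]

/-- `F : V → V` is a lift of `f : X → X` through `π : V → X`. -/
def IsLift (π : V → X) (F : V → V) (f : X → X) : Prop := ∀ z, π (F z) = f (π z)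

/-- `f` is a `C^r` diffeomorphism: `f` and its inverse have lifts of class `C^r`. -/
def IsDiffeo [TopologicalSpace X] (π : V → X) (r : ℕ∞) (f : X ≃ₜ X) : Prop :=
  (∃ F : V → V, ContDiff ℝ r F ∧ IsLift π F f) ∧ ∃ G : V → V, ContDiff ℝ r G ∧ IsLift π G f.symm

/-- `f` and `g` are `ε`-close in the uniform `C^k` topology: suitable lifts differ by less than
`ε` together with all derivatives of order at most `k`, everywhere. -/
def CkClose (π : V → X) (k : ℕ) (ε : ℝ) (f g : X → X) : Prop :=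
  ∃ F G : V → V, ContDiff ℝ k F ∧ ContDiff ℝ k G ∧ IsLift π F f ∧ IsLift π G g ∧
    ∀ j ≤ k, ∀ z, ‖iteratedFDeriv ℝ j (fun w => G w - F w) z‖ < ε

/-- The nonwandering set. -/
def Omega [TopologicalSpace X] (f : X ≃ₜ X) : Set X :=
  {x | ∀ U ∈ 𝓝 x, ∃ n : ℕ, 0 < n ∧ ((f^[n]) '' U ∩ U).Nonempty}

/-- The set of periodic points. -/
def Per [TopologicalSpace X] (f : X ≃ₜ X) : Set X := {x | ∃ n : ℕ, 0 < n ∧ f^[n] x = x}

/-- `f` on `Ω(f)` is topologically conjugate to `g` on `Ω(g)`. -/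
def OmegaConj [TopologicalSpace X] (f g : X ≃ₜ X) : Prop :=
  ∃ h : Omega f ≃ₜ Omega g, ∀ x y : Omega f, (y : X) = f x → (h y : X) = g (h x)

/-- `f` is `Ω`-stable as an element of the space of `C^r` diffeomorphisms with the `C^r` uniform
topology (for `r = ∞` a neighbourhood is given by finitely many derivatives). -/
def OmegaStable [TopologicalSpace X] (π : V → X) (r : ℕ∞) (f : X ≃ₜ X) : Prop :=
  ∃ k : ℕ, (k : ℕ∞) ≤ r ∧ ∃ ε : ℝ, 0 < ε ∧
    ∀ g : X ≃ₜ X, IsDiffeo π r g → CkClose π k ε f g → OmegaConj f g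

/-- Hyperbolicity of the set `S`, read with the `C^1` lifts `F` of `f` and `G` of `f⁻¹`.
`P x` is the projection of the tangent space at `x` onto `E^s_x` along `E^u_x`; it depends
continuously on `x ∈ S`, it commutes with the derivative of `f`, and `Df^m` contracts `E^s`,
`Df^{-m}` contracts `E^u`, exponentially fast. -/
def IsHypLift [TopologicalSpace X] (π : V → X) (F G : V → V) (f : X ≃ₜ X) (S : Set X) : Prop :=
  ∃ (P : X → V →L[ℝ] V) (c μ : ℝ), 0 < c ∧ 0 < μ ∧ μ < 1 ∧ ContinuousOn P S ∧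
    (∀ x ∈ S, P x ∘L P x = P x) ∧
    (∀ z, π z ∈ S → fderiv ℝ F z ∘L P (π z) = P (f (π z)) ∘L fderiv ℝ F z) ∧
    ∀ (m : ℕ) (z : V), π z ∈ S → ∀ v : V,
      ‖fderiv ℝ (F^[m]) z (P (π z) v)‖ ≤ c * μ ^ m * ‖P (π z) v‖ ∧
      ‖fderiv ℝ (G^[m]) z (v - P (π z) v)‖ ≤ c * μ ^ m * ‖v - P (π z) v‖

/-- The set `S` is hyperbolic for the `C^1` diffeomorphism `f`: the tangent bundle over `S` splits
continuously and `Df`-invariantly as `E^s ⊕ E^u`, with exponential contraction of `E^s` in the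
future and of `E^u` in the past. (The derivatives of the lifts do not depend on the lifts.) -/
def IsHyperbolic [TopologicalSpace X] (π : V → X) (f : X ≃ₜ X) (S : Set X) : Prop :=
  ∃ F G : V → V, ContDiff ℝ 1 F ∧ ContDiff ℝ 1 G ∧ IsLift π F f ∧ IsLift π G f.symm ∧
    IsHypLift π F G f S

/-- Axiom A: `Ω(f)` is hyperbolic and the periodic points are dense in `Ω(f)`. -/
def AxiomA [TopologicalSpace X] (π : V → X) (f : X ≃ₜ X) : Prop :=
  IsHyperbolic π f (Omega f) ∧ Omega f ⊆ closure (Per f)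

end General

section Metric

variable {X : Type*} [MetricSpace X]

/-- `W^s(S)`: the union of the stable sets of the points of `S`. The unstable set `W^u(S)` of `f`
is `Ws f.symm S`. -/
def Ws (f : X ≃ₜ X) (S : Set X) : Set X :=
  {y | ∃ x ∈ S, Tendsto (fun m : ℕ => dist (f^[m] x) (f^[m] y)) atTop (𝓝 0)}

/-- `Λ 0, …, Λ (k-1)` is a decomposition of `Ω(f)` into finitely many pairwise disjoint closed
invariant sets, each containing a dense orbit. -/
structure IsSpectral (f : X ≃ₜ X) {k : ℕ} (Λ : Fin k → Set X) : Prop where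
  closed : ∀ i, IsClosed (Λ i)
  invariant : ∀ i, f '' Λ i = Λ i
  disjoint : ∀ i j, i ≠ j → Disjoint (Λ i) (Λ j)
  union : ⋃ i, Λ i = Omega f
  dense_orbit : ∀ i, ∃ x ∈ Λ i,
    Λ i ⊆ closure (range (fun n : ℕ => f^[n] x) ∪ range fun n : ℕ => f.symm^[n] x)

/-- The no-cycle property: there is no cyclic sequence of `n + 2 ≥ 2` distinct pieces of the
spectral decomposition such that the unstable set of each piece meets the stable set of the
following one (`i + 1` is taken modulo `n + 2`). -/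
def NoCycle (f : X ≃ₜ X) : Prop :=
  ∀ (k : ℕ) (Λ : Fin k → Set X), IsSpectral f Λ → ∀ (n : ℕ) (c : Fin (n + 2) → Fin k),
    Function.Injective c → ∃ i, Ws f (Λ (c (i + 1))) ∩ Ws f.symm (Λ (c i)) = ∅

/-- The chain recurrent set: `x` lies on closed `ε`-chains for every `ε > 0`. -/
def ChainRec (f : X ≃ₜ X) : Set X :=
  {x | ∀ ε : ℝ, 0 < ε → ∃ (n : ℕ) (c : ℕ → X), 0 < n ∧ c 0 = x ∧ c n = x ∧
    ∀ i < n, dist (f (c i)) (c (i + 1)) < ε}

/-- The chain recurrent set of `f` is hyperbolic and contains the periodic points as a dense subset.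
This is equivalent to Axiom A together with the no-cycle property (Franke, Selgrade). -/
def ChainHyp {V : Type*} [NormedAddCommGroup V] [NormedSpace ℝ V] (π : V → X) (f : X ≃ₜ X) : Prop :=
  IsHyperbolic π f (ChainRec f) ∧ ChainRec f ⊆ closure (Per f)

end Metric

/-- `g : 𝕋 → 𝕋` is a projective map of the circle of lines of `ℝ²`: it is induced by a matrix of
determinant one, the point `t mod 1` being the line spanned by `(cos π t, sin π t)`. -/
def IsProjective (g : Circ → Circ) : Prop :=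
  ∃ A : Matrix (Fin 2) (Fin 2) ℝ, A.det = 1 ∧ ∀ t s : ℝ, g (t : UnitAddCircle) = (s : UnitAddCircle) →
    ∃ c : ℝ, A.mulVec ![Real.cos (Real.pi * t), Real.sin (Real.pi * t)] =
      c • ![Real.cos (Real.pi * s), Real.sin (Real.pi * s)]

/-- The skew product condition: `f (x, y) = (T x, f_x y)` with projective maps `f_x`. -/
def IsProjSkew {d : ℕ} (T : Torus d ≃ₜ Torus d) (f : (Torus d × Circ) ≃ₜ (Torus d × Circ)) : Prop :=
  (∀ x y, (f (x, y)).1 = T x) ∧ ∀ x, IsProjective fun y => (f (x, y)).2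

end Pool.Agent.H728R2.OS
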