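import Pool.Agent.H728R2.OS.Stubs

/-!
# Omega-stable projective skew products over hyperbolic systems of the torus: assembly
-/

open Set Filter Topology Complex Matrix
open scoped ComplexConjugate

namespace Pool.Agent.H728R2.OS

theorem su_entries (α β : ℂ) : su α β 0 0 = α ∧ su α β 0 1 = β ∧ su α β 1 0 = conj β ∧
    su α β 1 1 = conj α := ⟨rfl, rfl, rfl, rfl⟩

/-- The topological data attached to a projective skew product which is `Ω`-conjugate to its small
rotations. -/
theorem exists_topData {d : ℕ} {r : ℕ∞} (T : Torus d ≃ₜ Torus d)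
    (hT : ChainHyp toTorus T) (f : (Torus d × Circ) ≃ₜ (Torus d × Circ))
    (hf : IsDiffeo toTorus1 r f) (hr : 1 ≤ r) (hs : IsProjSkew T f)
    (hst : ∃ ε : ℝ, 0 < ε ∧ ε ≤ 1 ∧ ∀ θ : ℝ, |θ| < ε → OmegaConj f (f.trans (rotC θ))) :
    ∃ D : TopData (Torus d), D.T = T ∧ D.F = f ∧ D.Λ = ChainRec T ∧
      ∀ F : (Fin d → ℝ) × ℝ → (Fin d → ℝ) × ℝ, ContDiff ℝ 1 F → IsLift toTorus1 F f →
        ∀ z, fderiv ℝ F z ((0 : Fin d → ℝ), (1 : ℝ)) = (0, (D.φ (toTorus1 z))⁻¹) := by
  obtain ⟨hT1, hproj⟩ := hs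
  choose a b hab hmob using fun x => projective_mob (hproj x)
  have hf' : Mob f a b := fun x y => hmob x y
  obtain ⟨F₀, hF₀, lF₀⟩ := hf.1
  have hF₁ : ContDiff ℝ 1 F₀ := hF₀.of_le (by exact_mod_cast hr)
  obtain ⟨wpos, wcont, wder⟩ := wt_continuous hT1 hab hf' hF₁ lF₀
  -- perturbations
  obtain ⟨ε, hε, hε1, hconj⟩ := hst
  -- finitely many periodic points in the base
  have hPerCR : Per T ⊆ ChainRec T :=
    (per_subset_omega T).trans (omega_subset_chainRec T)
  have hTfin : ∀ m : ℕ, 0 < m → {x | T^[m] x = x}.Finite := fun m hm =>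
    finite_fix hT.1 hPerCR m hm
  have hoff : ∀ (x : Torus d) (k : ℕ), 0 < k → ∀ θ : ℂ, θ.im ≠ 0 → ∀ t : ℝ, |t| ≤ 2 →
      (pr (fun j => a (T^[j] x)) (fun j => b (T^[j] x)) θ k).trace ≠ t := by
    intro x k hk θ hθ t ht htr
    obtain ⟨l, hl, hdet⟩ := (unimodular_iff _
      (det_pr (fun j => a (T^[j] x)) (fun j => b (T^[j] x)) (fun j => hab _) θ k)).2 ⟨t, ht, htr⟩
    exact no_unimodular _ _ (fun j => hab _) k hk θ hθ l hl hdet
  have hreal : ∀ (x : Torus d) (θ : ℝ) (n : ℕ), ∃ α β : ℂ, ‖α‖ ^ 2 - ‖β‖ ^ 2 = 1 ∧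
      pr (fun j => a (T^[j] x)) (fun j => b (T^[j] x)) θ n = su α β := fun x θ n =>
    pr_real _ _ (fun j => hab _) θ n
  have hne : ∀ (x : Torus d) (k : ℕ), 0 < k → T^[k] x = x → ∀ θ : ℝ, |θ| < ε → ∀ t : ℝ,
      |t| ≤ 2 → (pr (fun j => a (T^[j] x)) (fun j => b (T^[j] x)) θ k).trace ≠ t := by
    intro x k hk hx θ hθ t ht
    refine no_elliptic T f a b hab e_injective hreal ?_ hTfin ε hε ?_ ?_ ?_ x k hk hx θ hθ t ht
    · intro θ n x y α β h1 h2
      obtain ⟨i1, i2, i3⟩ := iter_mob T f hT1 a b hab hf' θ n x y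
      refine ⟨i1, ?_⟩
      rw [i3, h2]
      rfl
    · exact fun θ hθ m hm => omegaConj_fix (hconj θ hθ) m hm
    · intro x k hk θ₀ t₀ ht₀ h₀ δ hδ
      exact exists_finite_order _ _ k (fun θ => det_pr _ _ (fun j => hab _) θ k)
        (hoff x k hk) θ₀ t₀ ht₀ h₀ δ hδ
    · exact fun x k hk => countable_parabolic _ _ k (hoff x k hk)
  have hsum : ∀ (x : Torus d) (k : ℕ), 0 < k → T^[k] x = x → ∀ (n : ℕ) (v : Fin 2 → ℂ),
      ε ^ 2 * ∑ j ∈ Finset.range (n + 1),
        nsq (pr (fun j => a (T^[j] x)) (fun j => b (T^[j] x)) 0 j *ᵥ v) ≤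
      nsq v + nsq (pr (fun j => a (T^[j] x)) (fun j => b (T^[j] x)) 0 n *ᵥ v) := by
    intro x k hk hx n v
    have hper : ∀ j : ℕ, T^[j + k] x = T^[j] x := fun j => by
      rw [Function.iterate_add_apply, hx]
    have hper' : ∀ j : ℕ, (fun j => a (T^[j] x)) (j + k) = (fun j => a (T^[j] x)) j ∧
        (fun j => b (T^[j] x)) (j + k) = (fun j => b (T^[j] x)) j := fun j => by
      simp only [hper, and_self]
    refine sum_le_of_periodic _ _ (fun j => hab _) k hk hper' ε hε ?_ n v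
    intro N hN0 hkN
    obtain ⟨W, hW, h0, h1⟩ := walk_exists N (fun j : ZMod N => a (T^[j.val] x))
      (fun j : ZMod N => b (T^[j.val] x)) (fun j => hab _)
    refine ⟨W, ?_, h0, h1⟩
    intro ψ
    refine isometry_gap W hW ε hε hε1 ?_ ψ
    intro θ hθ χ hχ
    by_contra hne'
    have := walk_eigen N (fun j => a (T^[j] x)) (fun j => b (T^[j] x)) (fun j => hab _) W h0 h1
      θ χ hχ hne'
    refine det_pow_ne _ _ k hk hper' θ ?_ N (Nat.pos_of_ne_zero hN0.out) hkN this
    intro l hl hdet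
    obtain ⟨t, ht, htr⟩ := (unimodular_iff _ (det_pr _ _ (fun j => hab _) θ k)).1 ⟨l, hl, hdet⟩
    exact hne x k hk hx θ hθ t ht htr
  let D₀ : TopData (Torus d) :=
    { T := T
      F := f
      fst_F := fun z => hT1 z.1 z.2
      φ := wt a b
      φ_pos := wpos
      φ_cont := wcont
      Λ := ChainRec T
      Λ_closed := isClosed_chainRec T
      Λ_inv := chainRec_inv T
      K := (ε ^ 2)⁻¹
      K_pos := by positivity
      sum_le := fun z hz n => sum_le_closure T f hT1 a b hab hf' wcont ε hε hsum z (hT.2 hz) n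
      mob := fun x y y' => mob_rel f a b hab hf' x y y'
      ex_le := fun x n => (ex_le_ge T f hT1 a b hab hf' x n).1
      ex_ge := fun x n => (ex_le_ge T f hT1 a b hab hf' x n).2 }
  refine ⟨D₀, rfl, rfl, rfl, ?_⟩
  intro F hF lF
  exact (wt_continuous hT1 hab hf' hF lF).2.2

/-- Main theorem: a projective skew product which is `Ω`-conjugate to its small rotations. -/
theorem main_rot {d : ℕ} {r : ℕ∞} (hr : 1 ≤ r) (T : Torus d ≃ₜ Torus d)
    (hT : ChainHyp toTorus T) (f : (Torus d × Circ) ≃ₜ (Torus d × Circ))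
    (hf : IsDiffeo toTorus1 r f) (hs : IsProjSkew T f)
    (hst : ∃ ε : ℝ, 0 < ε ∧ ε ≤ 1 ∧ ∀ θ : ℝ, |θ| < ε → OmegaConj f (f.trans (rotC θ))) :
    ChainHyp toTorus1 f ∧ AxiomA toTorus1 f ∧ NoCycle f := by
  obtain ⟨D, rfl, rfl, hΛ, hder⟩ := exists_topData T hT f hf hr hs hst
  obtain ⟨N, hN, hg⟩ := exists_growth D
  obtain ⟨D', hT', hF', hΛ', hφ', hup, hdn⟩ := exists_symm D
  have hg' : ∀ z : Torus d × Circ, z.1 ∈ D'.Λ → 4 ≤ D'.up N z ∨ 4 ≤ D'.dn N z := by
    intro z hz
    rw [hup, hdn]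
    exact (hg z (hΛ' ▸ hz)).symm
  obtain ⟨clS, invS, grS, C, μ, hC, hμ, hμ1, rateS⟩ := section_S D N hN hg
  have hUS : D'.S = D.U := by
    unfold TopData.S TopData.U
    simp only [hΛ', hup]
  obtain ⟨clU, invU, grU, C', μ', hC', hμ', hμ1', rateU⟩ := section_S D' N hN hg'
  rw [hUS] at clU invU grU rateU
  rw [hΛ'] at grU
  rw [hF'] at invU
  have invU' : ∀ z, D.F z ∈ D.U ↔ z ∈ D.U := fun z => by
    have := invU (D.F z)
    rw [D.F.symm_apply_apply] at this
    exact this.symm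
  have hdis : Disjoint D.S D.U := disjoint_S_U D N hN hg
  have hCR : ChainRec D.F ⊆ D.S ∪ D.U := chainRec_subset D N hN hg (le_of_eq hΛ.symm)
  have hPerT : Per D.T ⊆ D.Λ := by
    rw [hΛ]
    exact (per_subset_omega _).trans (omega_subset_chainRec _)
  have hdense : D.Λ ⊆ closure (Per D.T) := by
    rw [hΛ]
    exact hT.2
  have dS : D.S ⊆ closure (Per D.F) :=
    per_dense D.T D.F D.fst_F D.Λ hdense hPerT D.S clS (fun z hz => hz.1) invS grS
  have dU : D.U ⊆ closure (Per D.F) :=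
    per_dense D.T D.F D.fst_F D.Λ hdense hPerT D.U clU (fun z hz => hz.1) invU' grU
  -- hyperbolicity
  obtain ⟨⟨F, hF, lF⟩, G, hG, lG⟩ := hf
  have hF1 : ContDiff ℝ 1 F := hF.of_le (by exact_mod_cast hr)
  have hG1 : ContDiff ℝ 1 G := hG.of_le (by exact_mod_cast hr)
  have cov := isCov_toTorus d
  have cov1 := isCov_toTorus1 d
  have hu := fun (F G : (Fin d → ℝ) → (Fin d → ℝ)) (hF : Continuous F) (hG : Continuous G)
    (f : Torus d → Torus d) (h1 : IsLift toTorus F f) (h2 : IsLift toTorus G f)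
    (z w : Fin d → ℝ) (h : toTorus z = toTorus w) => fderiv_lift cov hF hG f h1 h2 z w h
  have hu1 := fun (F G : (Fin d → ℝ) × ℝ → (Fin d → ℝ) × ℝ) (hF : Continuous F)
    (hG : Continuous G) (f : Torus d × Circ → Torus d × Circ) (h1 : IsLift toTorus1 F f)
    (h2 : IsLift toTorus1 G f) (z w : (Fin d → ℝ) × ℝ) (h : toTorus1 z = toTorus1 w) =>
    fderiv_lift cov1 hF hG f h1 h2 z w h
  have hΛh : IsHyperbolic toTorus D.T D.Λ := hΛ ▸ hT.1
  have hypU : IsHyperbolic toTorus1 D.F D.U := by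
    refine hyperbolic_of_contraction (fun x y => D.fst_F (x, y)) cov cov1 hu hu1
      (fun Y _ _ E C μ h1 h2 h3 h4 h5 h6 => block_splitting E C μ h1 h2 h3 h4 h5 h6)
      hΛh D.Λ_inv clU invU' (fun z hz => hz.1) hF1 hG1 lF lG D.φ D.φ_pos (hder F hF1 lF)
      C' μ' hC' hμ' hμ1' ?_
    intro z hz n
    have hz' : D.F^[n] z ∈ D.U := by
      induction n with
      | zero => exact hz
      | succ n ih =>
        rw [Function.iterate_succ_apply']
        exact (invU' _).2 ih
    have := rateU _ hz' n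
    rw [hup, TopData.dn] at this
    rwa [(Function.LeftInverse.iterate D.F.symm_apply_apply n) z] at this
  have hypS' : IsHyperbolic toTorus1 D.F.symm D.S := by
    have hsymm : ∀ x y, (D.F.symm (x, y)).1 = D.T.symm x := by
      intro x y
      have := D.fst_F (D.F.symm (x, y))
      rw [D.F.apply_symm_apply] at this
      exact (D.T.symm_apply_eq.2 this).symm
    have hder' : ∀ z, fderiv ℝ G z ((0 : Fin d → ℝ), (1 : ℝ)) =
        (0, (D'.φ (toTorus1 z))⁻¹) := by
      intro z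
      rw [hφ', inv_inv]
      have hGz : toTorus1 (G z) = D.F.symm (toTorus1 z) := lG z
      have hFG : toTorus1 (F (G z)) = toTorus1 z := by
        rw [lF, hGz, D.F.apply_symm_apply]
      have h1 := hder F hF1 lF (G z)
      rw [hGz] at h1
      have h2 : fderiv ℝ (G ∘ F) (G z) = fderiv ℝ (id : (Fin d → ℝ) × ℝ → (Fin d → ℝ) × ℝ) (G z) :=
        hu1 (G ∘ F) id (hG.continuous.comp hF.continuous) continuous_id id
          (fun w => by
            show toTorus1 (G (F w)) = toTorus1 w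
            rw [lG, lF, D.F.symm_apply_apply]) (fun w => rfl) (G z) (G z) rfl
      rw [fderiv_id, fderiv_comp (G z) (hG1.differentiable one_ne_zero _)
        (hF1.differentiable one_ne_zero _),
        hu1 G G hG.continuous hG.continuous D.F.symm lG lG (F (G z)) z hFG] at h2
      have h3 := congrArg (fun L => L ((0 : Fin d → ℝ), (1 : ℝ))) h2
      simp only [ContinuousLinearMap.comp_apply, ContinuousLinearMap.id_apply, h1] at h3
      have h4 : ((0 : Fin d → ℝ), (D.φ (D.F.symm (toTorus1 z)))⁻¹) =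
          (D.φ (D.F.symm (toTorus1 z)))⁻¹ • ((0 : Fin d → ℝ), (1 : ℝ)) := by
        simp
      rw [h4, map_smul] at h3
      have hφ0 := (D.φ_pos (D.F.symm (toTorus1 z))).ne'
      have h5 := congrArg (fun w => D.φ (D.F.symm (toTorus1 z)) • w) h3
      simp only [smul_smul, mul_inv_cancel₀ hφ0, one_smul] at h5
      rw [h5]
      simp
    refine hyperbolic_of_contraction (T := D.T.symm) (f := D.F.symm) hsymm cov cov1 hu hu1
      (fun Y _ _ E C μ h1 h2 h3 h4 h5 h6 => block_splitting E C μ h1 h2 h3 h4 h5 h6)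
      (isHyperbolic_symm hu D.Λ_inv hΛh) ?_ clS ?_ (fun z hz => hz.1) hG1 hF1 lG lF
      D'.φ D'.φ_pos hder' C μ hC hμ hμ1 ?_
    · intro x
      have := D.Λ_inv (D.T.symm x)
      rw [D.T.apply_symm_apply] at this
      exact this.symm
    · intro z
      have := invS (D.F.symm z)
      rw [D.F.apply_symm_apply] at this
      exact this.symm
    · intro z hz n
      have hz' : D.F.symm^[n] z ∈ D.S := by
        induction n with
        | zero => exact hz
        | succ n ih =>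
          rw [Function.iterate_succ_apply']
          have := invS (D.F.symm (D.F.symm^[n] z))
          rw [D.F.apply_symm_apply] at this
          exact this.1 ih
      have := rateS _ hz' n
      rw [← hdn, TopData.dn, hF'] at this
      rwa [show (D.F.symm.symm^[n]) (D.F.symm^[n] z) = z from
        (Function.LeftInverse.iterate D.F.symm.symm_apply_apply n) z] at this
  have hypS : IsHyperbolic toTorus1 D.F D.S := by
    have := isHyperbolic_symm hu1 (f := D.F.symm) (S := D.S) (fun z => by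
      have := invS (D.F.symm z)
      rw [D.F.apply_symm_apply] at this
      exact this.symm) hypS'
    simpa using this
  have hyp : IsHyperbolic toTorus1 D.F (D.S ∪ D.U) :=
    isHyperbolic_union hu1 clS clU hdis invS invU' hypS hypU
  have hclO : closure (Per D.F) ⊆ Omega D.F :=
    closure_minimal (per_subset_omega _) (isClosed_omega _)
  have hOC : Omega D.F ⊆ ChainRec D.F := omega_subset_chainRec _
  have hSU : D.S ∪ D.U ⊆ closure (Per D.F) := union_subset dS dU
  have e1 : ChainRec D.F = D.S ∪ D.U :=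
    Subset.antisymm hCR ((hSU.trans hclO).trans hOC)
  have e2 : Omega D.F = D.S ∪ D.U :=
    Subset.antisymm (hOC.trans hCR) (hSU.trans hclO)
  refine ⟨⟨e1 ▸ hyp, e1 ▸ hSU⟩, ⟨e2 ▸ hyp, e2 ▸ hSU⟩, ?_⟩
  exact noCycle_of_chainRec _ (by rw [e1, e2])

/-- Main theorem: an `Ω`-stable projective skew product satisfies Axiom A and has no cycles. -/
theorem main {d : ℕ} {r : ℕ∞} (hr : 1 ≤ r) (T : Torus d ≃ₜ Torus d)
    (hT : ChainHyp toTorus T) (f : (Torus d × Circ) ≃ₜ (Torus d × Circ))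
    (hf : IsDiffeo toTorus1 r f) (hs : IsProjSkew T f) (hst : OmegaStable toTorus1 r f) :
    ChainHyp toTorus1 f ∧ AxiomA toTorus1 f ∧ NoCycle f :=
  main_rot hr T hT f hf hs (omegaStable_rot hf hst)

end Pool.Agent.H728R2.OS
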