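import Pool.Agent.H728R2.OS.S.SL2
import Pool.Agent.H728R2.OS.S.PERT
import Pool.Agent.H728R2.OS.S.COUNT
import Pool.Agent.H728R2.OS.S.FIXFIN
import Pool.Agent.H728R2.OS.S.TRA
import Pool.Agent.H728R2.OS.S.TRB
import Pool.Agent.H728R2.OS.S.TRC
import Pool.Agent.H728R2.OS.S.ITER
import Pool.Agent.H728R2.OS.S.ELIM
import Pool.Agent.H728R2.OS.S.UNI
import Pool.Agent.H728R2.OS.S.WALK
import Pool.Agent.H728R2.OS.S.CUT
import Pool.Agent.H728R2.OS.S.POW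
import Pool.Agent.H728R2.OS.S.PHI
import Pool.Agent.H728R2.OS.S.LIM
import Pool.Agent.H728R2.OS.S.MOBREL
import Pool.Agent.H728R2.OS.S.TSYM
import Pool.Agent.H728R2.OS.S.GROW
import Pool.Agent.H728R2.OS.S.SECT
import Pool.Agent.H728R2.OS.S.DISJ
import Pool.Agent.H728R2.OS.S.CHAIN
import Pool.Agent.H728R2.OS.S.CRGEN
import Pool.Agent.H728R2.OS.S.NOCYC
import Pool.Agent.H728R2.OS.S.COV
import Pool.Agent.H728R2.OS.S.HSYM
import Pool.Agent.H728R2.OS.S.BLOCK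
import Pool.Agent.H728R2.OS.S.HYPU
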